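import Mathlib

/-!
Algebraic core of the counterexample to the radicality of `L_n(d)` (off-diagonal entries of `X Xᵀ`).
-/

set_option autoImplicit false

namespace Pool.Agent.H154R4.LSS

/-- first vertex of the `k`-th edge of `K_6` -/
def p1 : Fin 15 → Fin 6 := ![0,0,0,1,1,1,2,2,2,0,0,1,3,3,4]
/-- second vertex of the `k`-th edge of `K_6` -/
def p2 : Fin 15 → Fin 6 := ![3,4,5,3,4,5,3,4,5,1,2,2,4,5,5]
/-- incidence matrix of `K_6` -/
def M0 : Fin 15 → Fin 6 → ℤ := fun k i => if i = p1 k ∨ i = p2 k then 1 else 0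

section Six

variable {O B : Type*} [CommRing O] [CommRing B] [Algebra O B] (N : Submodule O B)

lemma six (x : Fin 6 → B) (hu : IsUnit (48 : O))
    (hN : ∀ t a b, x a * x b * (2 * x t ^ 2 - x t * ∑ i, x i) ∈ N) :
    x 0 * x 1 * x 2 * x 3 ∈ N := by
  set S := ∑ i, x i with hS
  have hT : ∀ i j k, x i * x j * x k * (3 * S - 2 * x i - 2 * x j - 2 * x k) ∈ N := by
    intro i j k
    have h1 := N.add_mem (N.add_mem (hN i j k) (hN j i k)) (hN k i j)
    have h2 := N.neg_mem h1
    convert h2 using 1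
    ring
  have hZ : ∀ i j, 2 * S * x i * x j * (S - x i - x j) ∈ N := by
    intro i j
    have h1 : ∑ a, (x a * x j * (2 * x i ^ 2 - x i * S) + x a * x i * (2 * x j ^ 2 - x j * S)) ∈ N :=
      N.sum_mem (fun a _ => N.add_mem (hN i a j) (hN j a i))
    have h2 := N.neg_mem h1
    convert h2 using 1
    have e1 : ∑ a, (x a * x j * (2 * x i ^ 2 - x i * S) + x a * x i * (2 * x j ^ 2 - x j * S))
        = S * (x j * (2 * x i ^ 2 - x i * S) + x i * (2 * x j ^ 2 - x j * S)) := by
      rw [hS, Finset.sum_mul]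
      refine Finset.sum_congr rfl (fun a _ => ?_)
      ring
    rw [e1]
    ring
  have hP : ∀ i j, 2 * (∑ k, x i * x j * x k * (3 * S - 2 * x i - 2 * x j - 2 * x k))
      - 2 * (x i * x j * x i * (3 * S - 2 * x i - 2 * x j - 2 * x i))
      - 2 * (x i * x j * x j * (3 * S - 2 * x i - 2 * x j - 2 * x j))
      - 2 * S * x i * x j * (S - x i - x j) ∈ N := by
    intro i j
    refine N.sub_mem (N.sub_mem (N.sub_mem ?_ ?_) ?_) (hZ i j)
    · rw [two_mul]
      exact N.add_mem (N.sum_mem (fun k _ => hT i j k)) (N.sum_mem (fun k _ => hT i j k))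
    · rw [two_mul]
      exact N.add_mem (hT i j i) (hT i j i)
    · rw [two_mul]
      exact N.add_mem (hT i j j) (hT i j j)
  have key : (48 : O) • (x 0 * x 1 * x 2 * x 3) ∈ N := by
    have h45 := hP 4 5
    have h40 := hP 4 0
    have h41 := hP 4 1
    have h42 := hP 4 2
    have h43 := hP 4 3
    have h50 := hP 5 0
    have h51 := hP 5 1
    have h52 := hP 5 2
    have h53 := hP 5 3
    have h01 := hP 0 1
    have h02 := hP 0 2
    have h03 := hP 0 3
    have h12 := hP 1 2
    have h13 := hP 1 3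
    have h23 := hP 2 3
    have hall := N.sub_mem (N.add_mem (N.add_mem (N.add_mem (N.add_mem (N.add_mem (N.add_mem
      (N.smul_mem (3 : O) h45) h01) h02) h03) h12) h13) h23)
      (N.add_mem (N.add_mem (N.add_mem (N.add_mem (N.add_mem (N.add_mem (N.add_mem h40 h41) h42)
        h43) h50) h51) h52) h53)
    convert hall using 1
    simp only [hS, Fin.sum_univ_six, Algebra.smul_def, map_ofNat]
    ring
  exact (Submodule.smul_mem_iff_of_isUnit N hu).1 key

lemma exists_perm4 : ∀ i j k l : Fin 6, i ≠ j → i ≠ k → i ≠ l → j ≠ k → j ≠ l → k ≠ l →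
    ∃ m n : Fin 6, Function.Injective ![i, j, k, l, m, n] := by
  decide +kernel

lemma P4 (x : Fin 6 → B) (hu : IsUnit (48 : O))
    (hN : ∀ t a b, x a * x b * (2 * x t ^ 2 - x t * ∑ i, x i) ∈ N)
    (i j k l : Fin 6) (h1 : i ≠ j) (h2 : i ≠ k) (h3 : i ≠ l) (h4 : j ≠ k) (h5 : j ≠ l)
    (h6 : k ≠ l) : x i * x j * x k * x l ∈ N := by
  obtain ⟨m, n, h⟩ := exists_perm4 i j k l h1 h2 h3 h4 h5 h6
  have hb : Function.Bijective ![i, j, k, l, m, n] := Finite.injective_iff_bijective.1 h
  have hsum : ∑ t, x (![i, j, k, l, m, n] t) = ∑ t, x t := hb.sum_comp x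
  have := six N (fun t => x (![i, j, k, l, m, n] t)) hu (by
    intro t a b
    rw [hsum]
    exact hN _ _ _)
  simpa using this

lemma P3 (x : Fin 6 → B) (hu : IsUnit (48 : O))
    (hN : ∀ t a b, x a * x b * (2 * x t ^ 2 - x t * ∑ i, x i) ∈ N)
    (i j k : Fin 6) (h1 : i ≠ j) (h2 : i ≠ k) (h4 : j ≠ k) : x i * x i * x j * x k ∈ N := by
  have hl : ∀ i j k : Fin 6, i ≠ j → i ≠ k → j ≠ k → ∃ l, i ≠ l ∧ j ≠ l ∧ k ≠ l := by
    decide +kernel
  obtain ⟨l, h3, h5, h6⟩ := hl i j k h1 h2 h4
  obtain ⟨m, n, h⟩ := exists_perm4 i j k l h1 h2 h3 h4 h5 h6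
  have hb : Function.Bijective ![i, j, k, l, m, n] := Finite.injective_iff_bijective.1 h
  have hsum : ∑ t, x t = ∑ t, x (![i, j, k, l, m, n] t) := (hb.sum_comp x).symm
  have hS : ∑ t, x t = x i + x j + x k + x l + x m + x n := by
    rw [hsum, Fin.sum_univ_six]
    rfl
  have him : i ≠ m := fun e => by
    have := @h 0 4 (by simpa using e)
    exact absurd this (by decide)
  have hjm : j ≠ m := fun e => by
    have := @h 1 4 (by simpa using e)
    exact absurd this (by decide)
  have hkm : k ≠ m := fun e => by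
    have := @h 2 4 (by simpa using e)
    exact absurd this (by decide)
  have hin : i ≠ n := fun e => by
    have := @h 0 5 (by simpa using e)
    exact absurd this (by decide)
  have hjn : j ≠ n := fun e => by
    have := @h 1 5 (by simpa using e)
    exact absurd this (by decide)
  have hkn : k ≠ n := fun e => by
    have := @h 2 5 (by simpa using e)
    exact absurd this (by decide)
  have a1 := P4 N x hu hN i j k l h1 h2 h3 h4 h5 h6
  have a2 := P4 N x hu hN i j k m h1 h2 him h4 hjm hkm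
  have a3 := P4 N x hu hN i j k n h1 h2 hin h4 hjn hkn
  have hT : x i * x j * x k * (3 * (∑ t, x t) - 2 * x i - 2 * x j - 2 * x k) ∈ N := by
    have h1 := N.add_mem (N.add_mem (hN i j k) (hN j i k)) (hN k i j)
    have h2 := N.neg_mem h1
    convert h2 using 1
    ring
  have hr := hN i j k
  have hall := N.add_mem hr (N.sub_mem hT (N.smul_mem (2 : O) (N.add_mem (N.add_mem a1 a2) a3)))
  have key : (2 : O) • (x i * x i * x j * x k) ∈ N := by
    convert hall using 1
    rw [hS]
    simp only [Algebra.smul_def, map_ofNat]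
    ring
  have hu2 : IsUnit (2 : O) := by
    have : (48 : O) = 2 * 24 := by norm_num
    rw [this] at hu
    exact isUnit_of_mul_isUnit_left hu
  exact (Submodule.smul_mem_iff_of_isUnit N hu2).1 key

end Six

end Pool.Agent.H154R4.LSS
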