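import Pool.Agent.H154R4.Ortho

set_option autoImplicit false

namespace Pool.Agent.H154R4.LSS

/-- the base point `A_0` -/
def A0 : Matrix (Fin 9) (Fin 15) ℤ :=
  !![2, 0, 0, 0, 0, 0, 0, 0, 0, -1, -1, 1, -1, -1, 1;
     0, 2, 0, 0, 0, 0, 0, 0, 0, -1, -1, 1, -1, 1, -1;
     0, 0, 2, 0, 0, 0, 0, 0, 0, -1, -1, 1, 1, -1, -1;
     0, 0, 0, 2, 0, 0, 0, 0, 0, -1, 1, -1, -1, -1, 1;
     0, 0, 0, 0, 2, 0, 0, 0, 0, -1, 1, -1, -1, 1, -1;
     0, 0, 0, 0, 0, 2, 0, 0, 0, -1, 1, -1, 1, -1, -1;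
     0, 0, 0, 0, 0, 0, 2, 0, 0, 1, -1, -1, -1, -1, 1;
     0, 0, 0, 0, 0, 0, 0, 2, 0, 1, -1, -1, -1, 1, -1;
     0, 0, 0, 0, 0, 0, 0, 0, 2, 1, -1, -1, 1, -1, -1]

/-- incidence matrix as a matrix -/
def MM : Matrix (Fin 15) (Fin 6) ℤ := Matrix.of M0

/-- coordinate inclusion -/
def EE : Matrix (Fin 15) (Fin 9) ℤ := Matrix.of (fun k s => if k.1 = s.1 then 1 else 0)

/-- twice a left inverse of the incidence matrix -/
def NN : Matrix (Fin 6) (Fin 15) ℤ :=
  !![0, 0, 0, 0, 0, 0, 0, 0, 0, 1, 1, -1, 0, 0, 0;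
     0, 0, 0, 0, 0, 0, 0, 0, 0, 1, -1, 1, 0, 0, 0;
     0, 0, 0, 0, 0, 0, 0, 0, 0, -1, 1, 1, 0, 0, 0;
     0, 0, 0, 0, 0, 0, 0, 0, 0, 0, 0, 0, 1, 1, -1;
     0, 0, 0, 0, 0, 0, 0, 0, 0, 0, 0, 0, 1, -1, 1;
     0, 0, 0, 0, 0, 0, 0, 0, 0, 0, 0, 0, -1, 1, 1]

lemma A0_MM : A0 * MM = 0 := by decide +kernel

lemma A0_EE : A0 * EE = Matrix.of (fun i j => if i = j then 2 else 0) := by decide +kernel

lemma Pi_eq : Matrix.of (fun i j => if i = j then 2 else 0) - EE * A0 = MM * NN := by
  decide +kernel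

lemma NN_MM : NN * MM = Matrix.of (fun i j => if i = j then 2 else 0) := by decide +kernel

/-- cast of an integer matrix to a ring -/
abbrev cst {a b : Type} (D : Type*) [CommRing D] (M : Matrix a b ℤ) : Matrix a b D :=
  M.map (Int.cast : ℤ → D)

lemma cst_mul {a b c : Type} [Fintype b] {D : Type*} [CommRing D] (M : Matrix a b ℤ)
    (N : Matrix b c ℤ) : cst D (M * N) = cst D M * cst D N := by
  have := Matrix.map_mul (L := M) (M := N) (f := Int.castRingHom D)
  simpa using this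

/-- lifting the kernel basis -/
theorem exists_m {O : Type*} [CommRing O] (res : O →+* ℂ) (hres : ∀ x, res x ≠ 0 → IsUnit x)
    (A : Matrix (Fin 9) (Fin 15) O) (hA : ∀ s k, res (A s k) = ((A0 s k : ℤ) : ℂ)) :
    ∃ M : Matrix (Fin 15) (Fin 6) O, A * M = 0 ∧ ∀ k i, res (M k i) = ((M0 k i : ℤ) : ℂ) := by
  classical
  set AE := A * cst O EE with hAE
  have hAm : A.map res = cst ℂ A0 := by
    ext s k
    simp [hA, cst]
  have hcst : ∀ {a b : Type} (M : Matrix a b ℤ), (cst O M).map res = cst ℂ M := by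
    intro a b M
    ext s k
    simp [cst]
  have hdet : IsUnit AE.det := by
    apply hres
    rw [RingHom.map_det]
    have : res.mapMatrix AE = cst ℂ (A0 * EE) := by
      rw [cst_mul, ← hAm, ← hcst, RingHom.mapMatrix_apply, hAE, Matrix.map_mul]
    rw [this, A0_EE]
    have : cst ℂ (Matrix.of (fun i j : Fin 9 => if i = j then (2 : ℤ) else 0))
        = (2 : ℂ) • 1 := by
      ext i j
      by_cases h : i = j
      · subst h
        simp [cst]
      · simp [cst, h]
    rw [this, Matrix.det_smul, Matrix.det_one]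
    norm_num
  refine ⟨cst O MM - cst O EE * AE⁻¹ * (A * cst O MM), ?_, ?_⟩
  · have e : A * (cst O EE * AE⁻¹ * (A * cst O MM)) = A * cst O MM := by
      calc A * (cst O EE * AE⁻¹ * (A * cst O MM))
          = (A * cst O EE) * AE⁻¹ * (A * cst O MM) := by
            simp only [Matrix.mul_assoc]
        _ = A * cst O MM := by
            rw [← hAE, Matrix.mul_nonsing_inv _ hdet, Matrix.one_mul]
    rw [Matrix.mul_sub, e, sub_self]
  · intro k i
    have h0 : (A * cst O MM).map res = 0 := by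
      rw [Matrix.map_mul, hAm, hcst, ← cst_mul, A0_MM]
      ext a b
      simp [cst]
    have h1 : (cst O MM - cst O EE * AE⁻¹ * (A * cst O MM)).map res = cst ℂ MM := by
      rw [Matrix.map_sub _ (map_sub res), Matrix.map_mul, h0, Matrix.mul_zero, sub_zero, hcst]
    have := congrFun (congrFun h1 k) i
    simpa [cst, MM] using this

/-- the quadratic relations -/
theorem zz {O B : Type*} [CommRing O] [CommRing B] [Algebra O B]
    (a : Matrix (Fin 9) (Fin 15) O) (φ : Fin 9 → Fin 15 → B) (c w : Fin 15 → B)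
    (m : Matrix (Fin 15) (Fin 6) O) (hAM : a * m = 0)
    (hrel : ∀ k l, (∑ s, (a s k • φ s l + a s l • φ s k)) + c k * c l = if k = l then w k else 0)
    (i j : Fin 6) :
    (∑ k, m k i • c k) * (∑ l, m l j • c l) = ∑ k, (m k i * m k j) • w k := by
  have hAM' : ∀ s i, ∑ k, a s k * m k i = 0 := by
    intro s i
    have := congrFun (congrFun hAM s) i
    simpa [Matrix.mul_apply] using this
  have hcc : ∀ k l, c k * c l = (if k = l then w k else 0)
      - ((∑ s, a s k • φ s l) + ∑ s, a s l • φ s k) := by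
    intro k l
    rw [← hrel k l, Finset.sum_add_distrib]
    ring
  have e1 : ∑ k, ∑ l, (m k i * m l j) • ∑ s, a s k • φ s l = 0 := by
    have : ∑ k, ∑ l, (m k i * m l j) • ∑ s, a s k • φ s l
        = ∑ s, ∑ l, ((∑ k, a s k * m k i) * m l j) • φ s l := by
      simp only [Finset.smul_sum, Finset.sum_mul, Finset.sum_smul, smul_smul]
      rw [Finset.sum_comm]
      rw [Finset.sum_congr rfl (fun l _ => Finset.sum_comm)]
      rw [Finset.sum_comm]
      refine Finset.sum_congr rfl (fun s _ => Finset.sum_congr rfl (fun l _ =>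
        Finset.sum_congr rfl (fun k _ => ?_)))
      congr 1
      ring
    rw [this]
    simp [hAM']
  have e2 : ∑ k, ∑ l, (m k i * m l j) • ∑ s, a s l • φ s k = 0 := by
    have : ∑ k, ∑ l, (m k i * m l j) • ∑ s, a s l • φ s k
        = ∑ s, ∑ k, ((∑ l, a s l * m l j) * m k i) • φ s k := by
      simp only [Finset.smul_sum, Finset.sum_mul, Finset.sum_smul, smul_smul]
      rw [Finset.sum_congr rfl (fun l _ => Finset.sum_comm)]
      rw [Finset.sum_comm]
      refine Finset.sum_congr rfl (fun s _ => Finset.sum_congr rfl (fun l _ =>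
        Finset.sum_congr rfl (fun k _ => ?_)))
      congr 1
      ring
    rw [this]
    simp [hAM']
  have e3 : (∑ k, m k i • c k) * (∑ l, m l j • c l)
      = ∑ k, ∑ l, (m k i * m l j) • (c k * c l) := by
    rw [Finset.sum_mul_sum]
    refine Finset.sum_congr rfl (fun k _ => Finset.sum_congr rfl (fun l _ => ?_))
    rw [smul_mul_smul_comm]
  rw [e3]
  simp only [hcc, smul_sub, smul_add, Finset.sum_sub_distrib, Finset.sum_add_distrib]
  rw [e1, e2]
  simp only [add_zero, sub_zero]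
  refine Finset.sum_congr rfl (fun k _ => ?_)
  simp

/-- solving the linear system for `Φ` -/
theorem solve {D : Type*} [CommRing D] [Algebra ℂ D] (Y : Matrix (Fin 15) (Fin 15) D)
    (hY : Y.transpose = Y) (hM : (cst D MM).transpose * Y * cst D MM = 0) :
    ∃ Φ : Matrix (Fin 9) (Fin 15) D,
      (cst D A0).transpose * Φ + Φ.transpose * cst D A0 = Y := by
  set A := cst D A0 with hA
  set E := cst D EE with hE
  set M := cst D MM with hMdef
  set N := cst D NN with hN
  have hPi : (2 : ℂ) • (1 : Matrix (Fin 15) (Fin 15) D) - E * A = M * N := by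
    rw [hE, hA, hMdef, hN, ← cst_mul, ← cst_mul, ← Pi_eq]
    ext i j
    by_cases h : i = j
    · subst h
      rw [Matrix.sub_apply, Matrix.smul_apply, Matrix.one_apply_eq, Algebra.smul_def, map_ofNat]
      simp [cst, Matrix.mul_apply]
    · simp [cst, Matrix.mul_apply, h]
  have h0 : ((2 : ℂ) • (1 : Matrix (Fin 15) (Fin 15) D) - E * A).transpose * Y *
      ((2 : ℂ) • (1 : Matrix (Fin 15) (Fin 15) D) - E * A) = 0 := by
    rw [hPi, Matrix.transpose_mul]
    calc N.transpose * M.transpose * Y * (M * N)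
        = N.transpose * (M.transpose * Y * M) * N := by
          simp only [Matrix.mul_assoc]
      _ = 0 := by rw [hM]; simp
  refine ⟨(1/2 : ℂ) • (E.transpose * Y) - (1/8 : ℂ) • (E.transpose * Y * E * A), ?_⟩
  have hQ : A.transpose * E.transpose = (E * A).transpose := by rw [Matrix.transpose_mul]
  set Q := E * A with hQdef
  have t1 : A.transpose * ((1/2 : ℂ) • (E.transpose * Y) - (1/8 : ℂ) • (E.transpose * Y * E * A))
      = (1/2 : ℂ) • (Q.transpose * Y) - (1/8 : ℂ) • (Q.transpose * Y * Q) := by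
    rw [Matrix.mul_sub, Matrix.mul_smul, Matrix.mul_smul, ← hQ, hQdef]
    simp only [Matrix.mul_assoc]
  have t2 : ((1/2 : ℂ) • (E.transpose * Y) - (1/8 : ℂ) • (E.transpose * Y * E * A)).transpose * A
      = (1/2 : ℂ) • (Y * Q) - (1/8 : ℂ) • (Q.transpose * Y * Q) := by
    rw [Matrix.transpose_sub, Matrix.transpose_smul, Matrix.transpose_smul, Matrix.sub_mul,
      Matrix.smul_mul, Matrix.smul_mul]
    simp only [Matrix.transpose_mul, Matrix.transpose_transpose, hY]
    rw [← hQ, hQdef]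
    simp only [Matrix.mul_assoc]
  rw [t1, t2]
  have h1 : (4 : ℂ) • Y - (2 : ℂ) • (Q.transpose * Y) - (2 : ℂ) • (Y * Q) + Q.transpose * Y * Q
      = 0 := by
    rw [← h0]
    simp only [Matrix.transpose_sub, Matrix.transpose_smul, Matrix.transpose_one, Matrix.sub_mul,
      Matrix.mul_sub, Matrix.smul_mul, Matrix.mul_smul, Matrix.one_mul, Matrix.mul_one]
    module
  have h2 : Y = (1/4 : ℂ) • ((4 : ℂ) • Y - (2 : ℂ) • (Q.transpose * Y) - (2 : ℂ) • (Y * Q)
      + Q.transpose * Y * Q) + ((1/2 : ℂ) • (Q.transpose * Y) + (1/2 : ℂ) • (Y * Q)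
      - (1/4 : ℂ) • (Q.transpose * Y * Q)) := by
    module
  rw [h1, smul_zero, zero_add] at h2
  conv_rhs => rw [h2]
  module

end Pool.Agent.H154R4.LSS
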