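import Pool.Agent.H154R4.Test

set_option autoImplicit false

open MvPolynomial

namespace Pool.Agent.H154R4.LSS

/-- polynomial ring in the entries of a `15 × 19` matrix -/
abbrev R := MvPolynomial (Fin 15 × Fin 19) ℂ

/-- entries of `X Xᵀ` -/
noncomputable def ff (i j : Fin 15) : R := ∑ k : Fin 19, X (i, k) * X (j, k)

/-- the ideal `L_15(19)` -/
noncomputable def L : Ideal R :=
  Ideal.span {p : R | ∃ i j : Fin 15, i ≠ j ∧ p = ∑ k : Fin 19, X (i, k) * X (j, k)}

def j1 (s : Fin 9) : Fin 19 := ⟨s.1, by omega⟩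
def j2 (s : Fin 9) : Fin 19 := ⟨9 + s.1, by omega⟩
def j3 : Fin 19 := 18

lemma sum19 {D : Type*} [AddCommMonoid D] (g : Fin 19 → D) :
    ∑ t, g t = ∑ s, g (j1 s) + ∑ s, g (j2 s) + g j3 := by
  rw [Fin.sum_univ_castSucc]
  rw [Fin.sum_univ_add (a := 9) (b := 9) (fun i : Fin (9 + 9) => g (Fin.castSucc i))]
  rfl

noncomputable def aR (s : Fin 9) (k : Fin 15) : R := C (1/2) * (X (k, j1 s) - C Complex.I * X (k, j2 s))
noncomputable def φR (s : Fin 9) (k : Fin 15) : R := X (k, j1 s) + C Complex.I * X (k, j2 s)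
noncomputable def cR (k : Fin 15) : R := X (k, j3)

lemma ff_eq (k l : Fin 15) :
    ff k l = ∑ s, (aR s k * φR s l + aR s l * φR s k) + cR k * cR l := by
  have hI : (C Complex.I : R) * C Complex.I = -1 := by
    rw [← C_mul, Complex.I_mul_I, C_neg, C_1]
  have hh : (2 : R) * C (1/2) = 1 := by
    have : (2 : R) = C 2 := (map_ofNat (C : ℂ →+* R) 2).symm
    rw [this, ← C_mul]
    norm_num
  rw [ff, sum19, ← Finset.sum_add_distrib]
  simp only [cR]
  congr 1
  refine Finset.sum_congr rfl (fun s _ => ?_)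
  simp only [aR, φR]
  linear_combination (-(X (k, j1 s) * X (l, j1 s) : R) - X (k, j2 s) * X (l, j2 s)) * hh
    + (2 * C (1/2) * (X (k, j2 s) * X (l, j2 s))) * hI

/-- base polynomial ring -/
abbrev P := MvPolynomial (Fin 9 × Fin 15) ℂ

noncomputable def ι : P →+* R := eval₂Hom (C : ℂ →+* R) (fun q => aR q.1 q.2)

noncomputable def ev0 : P →+* ℂ := eval (fun q => ((A0 q.1 q.2 : ℤ) : ℂ))

noncomputable def pp : Ideal P := RingHom.ker ev0

instance : (pp).IsPrime := RingHom.ker_isPrime ev0

lemma ev0_ne {p : P} (hp : p ∈ pp.primeCompl) : ev0 p ≠ 0 := hp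

section OO

variable (O : Type) [CommRing O] [Algebra P O] [IsLocalization.AtPrime O pp]

noncomputable def res0 : O →+* ℂ :=
  IsLocalization.lift (M := pp.primeCompl) (g := ev0) (fun y => IsUnit.mk0 _ (ev0_ne y.2))

lemma res0_alg (p : P) : res0 O (algebraMap P O p) = ev0 p := IsLocalization.lift_eq _ p

lemma res0_unit (x : O) (hx : res0 O x ≠ 0) : IsUnit x := by
  obtain ⟨p, s, rfl⟩ := IsLocalization.exists_mk'_eq pp.primeCompl x
  rw [IsLocalization.AtPrime.isUnit_mk'_iff O pp]
  intro hp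
  apply hx
  rw [res0, IsLocalization.lift_mk']
  have : ev0 p = 0 := hp
  rw [this, zero_mul]

lemma mem_max [IsLocalRing O] (x : O) (hx : res0 O x = 0) : x ∈ IsLocalRing.maximalIdeal O := by
  rw [IsLocalRing.mem_maximalIdeal]
  intro hu
  have := hu.map (res0 O)
  rw [hx] at this
  exact not_isUnit_zero this

end OO

/-- assignment of the variables -/
noncomputable def asg {D : Type*} (α β : Fin 9 → D) (γ : D) (t : Fin 19) : D :=
  if h : t.1 < 9 then α ⟨t.1, h⟩ else if h2 : t.1 < 18 then β ⟨t.1 - 9, by omega⟩ else γ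

lemma asg1 {D : Type*} (α β : Fin 9 → D) (γ : D) (s : Fin 9) : asg α β γ (j1 s) = α s := by
  have h : (j1 s).1 < 9 := s.2
  rw [asg, dif_pos h]
  rfl

lemma asg2 {D : Type*} (α β : Fin 9 → D) (γ : D) (s : Fin 9) : asg α β γ (j2 s) = β s := by
  have h : ¬ (j2 s).1 < 9 := by simp [j2]
  have h2 : (j2 s).1 < 18 := by simp [j2]; omega
  rw [asg, dif_neg h, dif_pos h2]
  congr 1
  ext
  simp [j2]

lemma asg3 {D : Type*} (α β : Fin 9 → D) (γ : D) : asg α β γ j3 = γ := by
  have h : ¬ (j3).1 < 9 := by simp [j3]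
  have h2 : ¬ (j3).1 < 18 := by simp [j3]
  rw [asg, dif_neg h, dif_neg h2]

section Hom

variable {D : Type*} [CommRing D] (κ : ℂ →+* D) (α φ : Fin 9 → Fin 15 → D) (γ : Fin 15 → D)

noncomputable def gh : R →+* D :=
  eval₂Hom κ (fun q => asg (fun s => α s q.1 + κ (1/2) * φ s q.1)
    (fun s => κ Complex.I * (α s q.1 - κ (1/2) * φ s q.1)) (γ q.1) q.2)

lemma κI : κ Complex.I * κ Complex.I = -1 := by
  rw [← map_mul, Complex.I_mul_I, map_neg, map_one]

lemma κh : 2 * κ (1/2) = 1 := by
  have : (2 : D) = κ 2 := (map_ofNat κ 2).symm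
  rw [this, ← map_mul]
  norm_num

lemma gh_aR (s : Fin 9) (k : Fin 15) : gh κ α φ γ (aR s k) = α s k := by
  simp only [gh, aR, map_mul, map_sub, coe_eval₂Hom, eval₂_C, eval₂_X, asg1, asg2]
  linear_combination (α s k) * κh κ - κ (1/2) * (α s k - κ (1/2) * φ s k) * κI κ

lemma gh_φR (s : Fin 9) (k : Fin 15) : gh κ α φ γ (φR s k) = φ s k := by
  simp only [gh, φR, map_mul, map_add, coe_eval₂Hom, eval₂_C, eval₂_X, asg1, asg2]
  linear_combination (φ s k) * κh κ + (α s k - κ (1/2) * φ s k) * κI κ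

lemma gh_cR (k : Fin 15) : gh κ α φ γ (cR k) = γ k := by
  simp only [gh, cR, coe_eval₂Hom, eval₂_X, asg3]

lemma gh_ff (k l : Fin 15) : gh κ α φ γ (ff k l)
    = ∑ s, (α s k * φ s l + α s l * φ s k) + γ k * γ l := by
  rw [ff_eq]
  simp only [map_add, map_sum, map_mul, gh_aR, gh_φR, gh_cR]

lemma gh_ι (p : P) : gh κ α φ γ (ι p) = eval₂Hom κ (fun q => α q.1 q.2) p := by
  have : (gh κ α φ γ).comp ι = eval₂Hom κ (fun q => α q.1 q.2) := by
    apply MvPolynomial.ringHom_ext
    · intro r
      simp [ι, gh]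
    · intro q
      simp only [ι, RingHom.comp_apply, coe_eval₂Hom, eval₂_X]
      exact gh_aR κ α φ γ q.1 q.2
  exact congrArg (fun h : P →+* D => h p) this

lemma gh_L (h : ∀ k l, k ≠ l → ∑ s, (α s k * φ s l + α s l * φ s k) + γ k * γ l = 0) :
    ∀ x ∈ L, gh κ α φ γ x = 0 := by
  intro x hx
  have : L ≤ RingHom.ker (gh κ α φ γ) := by
    rw [L, Ideal.span_le]
    rintro _ ⟨i, j, hij, rfl⟩
    have := gh_ff κ α φ γ i j
    rw [ff, h i j hij] at this
    exact this
  exact this hx

end Hom

noncomputable def mkL : R →+* R ⧸ L := Ideal.Quotient.mk L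

noncomputable def f1 : P →+* R ⧸ L := mkL.comp ι

noncomputable def TT : Submonoid (R ⧸ L) := pp.primeCompl.map f1

section BB

variable (O : Type) [CommRing O] [Algebra P O] [IsLocalization.AtPrime O pp]
variable (B : Type) [CommRing B] [Algebra (R ⧸ L) B] [IsLocalization TT B]

noncomputable def jO : O →+* B := IsLocalization.map B f1 (M := pp.primeCompl) (T := TT)
  (Submonoid.le_comap_map _)

lemma jO_alg (p : P) : jO O B (algebraMap P O p) = algebraMap (R ⧸ L) B (mkL (ι p)) :=
  IsLocalization.map_eq _ p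

noncomputable def jB : R →+* B := (algebraMap (R ⧸ L) B).comp mkL

/-- maps out of `B` -/
theorem exists_hom {D : Type*} [CommRing D] (κ : ℂ →+* D) (α φ : Fin 9 → Fin 15 → D)
    (γ : Fin 15 → D)
    (h : ∀ k l, k ≠ l → ∑ s, (α s k * φ s l + α s l * φ s k) + γ k * γ l = 0)
    (hu : ∀ p ∈ pp.primeCompl, IsUnit (eval₂Hom κ (fun q : Fin 9 × Fin 15 => α q.1 q.2) p)) :
    ∃ g : B →+* D, (∀ r, g (jB B r) = gh κ α φ γ r) ∧
      ∀ p, g (jO O B (algebraMap P O p))
        = eval₂Hom κ (fun q : Fin 9 × Fin 15 => α q.1 q.2) p := by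
  let g1 : R ⧸ L →+* D := Ideal.Quotient.lift L (gh κ α φ γ) (gh_L κ α φ γ h)
  have hg1 : ∀ r, g1 (mkL r) = gh κ α φ γ r := fun r => Ideal.Quotient.lift_mk _ _ _
  have hT : ∀ y : TT, IsUnit (g1 y) := by
    rintro ⟨y, hy⟩
    obtain ⟨p, hp, rfl⟩ := hy
    change IsUnit (g1 (mkL (ι p)))
    rw [hg1, gh_ι]
    exact hu p hp
  refine ⟨IsLocalization.lift (M := TT) (S := B) hT, ?_, ?_⟩
  · intro r
    change IsLocalization.lift hT (algebraMap (R ⧸ L) B (mkL r)) = _
    rw [IsLocalization.lift_eq, hg1]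
  · intro p
    rw [jO_alg, IsLocalization.lift_eq, hg1, gh_ι]

theorem main_aux [IsLocalRing O] (hBr : IsReduced B) : False := by
  let _ : Algebra O B := (jO O B).toAlgebra
  have hsm : ∀ (x : O) (b : B), x • b = jO O B x * b := fun x b => rfl
  -- base elements
  let a : Matrix (Fin 9) (Fin 15) O := Matrix.of (fun s k => algebraMap P O (X (s, k)))
  have ha : ∀ s k, res0 O (a s k) = ((A0 s k : ℤ) : ℂ) := by
    intro s k
    simp only [a, Matrix.of_apply]
    rw [res0_alg]
    simp [ev0]
  obtain ⟨m, hAm, hm⟩ := exists_m (res0 O) (res0_unit O) a ha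
  have hja : ∀ s k, jO O B (a s k) = jB B (aR s k) := by
    intro s k
    simp only [a, Matrix.of_apply]
    rw [jO_alg]
    simp [ι, jB]
  let φ : Fin 9 → Fin 15 → B := fun s k => jB B (φR s k)
  let c : Fin 15 → B := fun k => jB B (cR k)
  let w : Fin 15 → B := fun k => jB B (ff k k)
  let z : Fin 6 → B := fun j => ∑ k, m k j • c k
  have hrel : ∀ k l, (∑ s, (a s k • φ s l + a s l • φ s k)) + c k * c l
      = if k = l then w k else 0 := by
    intro k l
    have e : (∑ s, (a s k • φ s l + a s l • φ s k)) + c k * c l = jB B (ff k l) := by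
      rw [ff_eq]
      simp only [hsm, hja, φ, c, map_add, map_sum, map_mul]
    rw [e]
    by_cases h : k = l
    · subst h
      rw [if_pos rfl]
    · rw [if_neg h]
      have : ff k l ∈ L := Ideal.subset_span ⟨k, l, h, rfl⟩
      have h2 : mkL (ff k l) = 0 := Ideal.Quotient.eq_zero_iff_mem.2 this
      change algebraMap (R ⧸ L) B (mkL (ff k l)) = 0
      rw [h2, map_zero]
  have hzz := zz a φ c w m hAm hrel
  -- evaluations
  have hev : ∀ i : Fin 15, ∃ g : B →ₐ[O] O, ∀ l, g (w l) = if i = l then 1 else 0 := by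
    intro i
    have hcomp : ∀ p : P, eval₂Hom ((algebraMap P O).comp C)
        (fun q : Fin 9 × Fin 15 => a q.1 q.2) p = algebraMap P O p := by
      intro p
      have : eval₂Hom ((algebraMap P O).comp C) (fun q : Fin 9 × Fin 15 => a q.1 q.2)
          = algebraMap P O := by
        apply MvPolynomial.ringHom_ext
        · intro r
          simp
        · intro q
          simp [a]
      rw [this]
    obtain ⟨g, hg1, hg2⟩ := exists_hom O B ((algebraMap P O).comp C) (fun s k => a s k)
      (fun _ _ => 0) (fun k => if i = k then 1 else 0)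
      (by
        intro k l hkl
        by_cases h1 : i = k
        · have h2 : i ≠ l := fun h => hkl (h1.symm.trans h)
          simp [h2]
        · simp [h1])
      (by
        intro p hp
        rw [hcomp]
        exact IsLocalization.map_units O (⟨p, hp⟩ : pp.primeCompl))
    have hgO : g.comp (jO O B) = RingHom.id O := by
      apply IsLocalization.ringHom_ext pp.primeCompl
      refine RingHom.ext (fun p => ?_)
      simp only [RingHom.comp_apply, RingHom.id_apply]
      rw [hg2, hcomp]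
    refine ⟨{ g with commutes' := fun x => ?_ }, ?_⟩
    · exact congrArg (fun h : O →+* O => h x) hgO
    · intro l
      change g (jB B (ff l l)) = _
      rw [hg1, gh_ff]
      by_cases h : i = l <;> simp [h]
  choose ev hev using hev
  have h48 : IsUnit (48 : O) := by
    apply res0_unit
    rw [map_ofNat]
    norm_num
  have hmr : ∀ k i, IsLocalRing.residue O (m k i)
      = ((M0 k i : ℤ) : IsLocalRing.ResidueField O) := by
    intro k i
    rw [← sub_eq_zero, ← map_intCast (IsLocalRing.residue O), ← map_sub,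
      IsLocalRing.residue_eq_zero_iff]
    apply mem_max
    rw [map_sub, hm, map_intCast, sub_self]
  have hort := ortho (fun k i => m k i) z w h48 hmr hzz ev hev
  have hsq := zeta_sq (fun k i => m k i) z w hzz hort 9 0 2
  have hzero : (m 9 0 • z 2 - m 9 2 • z 0) * w 9 = 0 := by
    exact pow_eq_zero_iff (two_ne_zero) |>.1 hsq
  -- test
  obtain ⟨D, iD, aD, Φ, Γ, w', zv, hrel', hz', hne⟩ := exists_test
  have hcomp : ∀ p : P, eval₂Hom (algebraMap ℂ D)
      (fun q : Fin 9 × Fin 15 => ((A0 q.1 q.2 : ℤ) : D)) p = algebraMap ℂ D (ev0 p) := by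
    intro p
    have : eval₂Hom (algebraMap ℂ D) (fun q : Fin 9 × Fin 15 => ((A0 q.1 q.2 : ℤ) : D))
        = (algebraMap ℂ D).comp ev0 := by
      apply MvPolynomial.ringHom_ext
      · intro r
        simp [ev0]
      · intro q
        simp [ev0]
    rw [this]
    rfl
  obtain ⟨g, hg1, hg2⟩ := exists_hom O B (algebraMap ℂ D) (fun s k => ((A0 s k : ℤ) : D)) Φ Γ
    (by
      intro k l hkl
      have := hrel' k l
      rw [if_neg hkl] at this
      rw [← this]
      congr 1
      refine Finset.sum_congr rfl (fun s _ => ?_)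
      ring)
    (by
      intro p hp
      rw [hcomp]
      exact (IsUnit.mk0 _ (ev0_ne hp)).map _)
  have hgO : ∀ x : O, g (jO O B x) = algebraMap ℂ D (res0 O x) := by
    have : g.comp (jO O B) = (algebraMap ℂ D).comp (res0 O) := by
      apply IsLocalization.ringHom_ext pp.primeCompl
      refine RingHom.ext (fun p => ?_)
      simp only [RingHom.comp_apply]
      rw [hg2, hcomp, res0_alg]
    intro x
    exact congrArg (fun h : O →+* D => h x) this
  have hgm : ∀ k i, g (jO O B (m k i)) = ((M0 k i : ℤ) : D) := by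
    intro k i
    rw [hgO, hm, map_intCast]
  have hgw : ∀ k, g (w k) = w' k := by
    intro k
    change g (jB B (ff k k)) = _
    rw [hg1]
    refine (gh_ff _ _ _ _ k k).trans ?_
    have := hrel' k k
    rw [if_pos rfl] at this
    rw [← this]
    congr 1
    refine Finset.sum_congr rfl (fun s _ => ?_)
    ring
  have hgz : ∀ j, g (z j) = zv j := by
    intro j
    simp only [z, hsm, map_sum, map_mul, hgm]
    rw [← hz' j]
    refine Finset.sum_congr rfl (fun k _ => ?_)
    change _ * g (jB B (cR k)) = _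
    rw [hg1]
    exact congrArg (fun y => ((M0 k j : ℤ) : D) * y) (gh_cR _ _ _ _ k)
  have hfin := congrArg g hzero
  simp only [hsm, map_mul, map_sub, hgm, hgw, hgz, map_zero] at hfin
  apply hne
  have e1 : M0 9 0 = 1 := by decide
  have e2 : M0 9 2 = 0 := by decide
  rw [e1, e2] at hfin
  simpa using hfin

end BB

/-- `L_15(19)` is not radical over `ℂ`. -/
theorem not_radical : ¬ L.IsRadical := by
  intro hL
  have hQ : IsReduced (R ⧸ L) := (Ideal.isRadical_iff_quotient_reduced L).1 hL
  have hBr : IsReduced (Localization TT) :=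
    isReduced_localizationPreserves TT (Localization TT) hQ
  exact main_aux (Localization.AtPrime pp) (Localization TT) hBr

end Pool.Agent.H154R4.LSS
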