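import Pool.Agent.H154R4.Core

set_option autoImplicit false

namespace Pool.Agent.H154R4.LSS

open scoped Pointwise

lemma num1 : ∀ k t, 2 * M0 k t ^ 2 - ∑ i, M0 k t * M0 k i = 0 := by
  decide +kernel

lemma num2 : ∀ l k, M0 l (p1 k) * M0 l (p2 k) = if l = k then 1 else 0 := by
  decide +kernel

lemma num3 : ∀ k, p1 k ≠ p2 k := by decide +kernel

lemma num4 : ∀ k l, k ≠ l → ¬ (p1 k = p1 l ∧ p2 k = p2 l) ∧ ¬ (p1 k = p2 l ∧ p2 k = p1 l) := by
  decide +kernel

section Core

variable {O B : Type*} [CommRing O] [IsLocalRing O] [CommRing B] [Algebra O B]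

lemma smul_mul_mem (I : Ideal O) (D E : Submodule O B) {x y : B} (hx : x ∈ I • D) (hy : y ∈ E) :
    x * y ∈ I • (D * E) := by
  refine Submodule.smul_induction_on hx ?_ ?_
  · intro r hr n hn
    rw [smul_mul_assoc]
    exact Submodule.smul_mem_smul hr (Submodule.mul_mem_mul hn hy)
  · intro a b ha hb
    rw [add_mul]
    exact Submodule.add_mem _ ha hb

theorem ortho (m : Fin 15 → Fin 6 → O) (z : Fin 6 → B) (w : Fin 15 → B) (hu : IsUnit (48 : O))
    (hm : ∀ k i, IsLocalRing.residue O (m k i) = ((M0 k i : ℤ) : IsLocalRing.ResidueField O))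
    (hzz : ∀ i j, z i * z j = ∑ k, (m k i * m k j) • w k)
    (ev : Fin 15 → (B →ₐ[O] O)) (hev : ∀ k l, ev k (w l) = if k = l then 1 else 0)
    (k l : Fin 15) (hkl : k ≠ l) : w k * w l = 0 := by
  set I := IsLocalRing.maximalIdeal O with hI
  set D2 : Submodule O B := Submodule.span O (Set.range w) with hD2
  set N : Submodule O B := I • (D2 * D2) with hNdef
  have hw : ∀ k, w k ∈ D2 := fun k => Submodule.subset_span ⟨k, rfl⟩
  have hzD : ∀ i j, z i * z j ∈ D2 := by
    intro i j
    rw [hzz]
    exact D2.sum_mem (fun k _ => D2.smul_mem _ (hw k))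
  have hmul : ∀ x y, x ∈ I • D2 → y ∈ D2 → x * y ∈ N := fun x y hx hy =>
    smul_mul_mem I D2 D2 hx hy
  have hr : ∀ t, 2 * z t ^ 2 - z t * ∑ i, z i ∈ I • D2 := by
    intro t
    have e : 2 * z t ^ 2 - z t * ∑ i, z i
        = ∑ k, (2 * m k t ^ 2 - ∑ i, m k t * m k i) • w k := by
      rw [Finset.mul_sum, pow_two, Finset.sum_congr rfl (fun i _ => hzz t i), hzz t t,
        Finset.sum_comm, two_mul, ← Finset.sum_add_distrib, ← Finset.sum_sub_distrib]
      refine Finset.sum_congr rfl (fun k _ => ?_)
      rw [← Finset.sum_smul, sub_smul, ← add_smul]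
      congr 2
      ring
    rw [e]
    refine Submodule.sum_mem _ (fun k _ => Submodule.smul_mem_smul ?_ (hw k))
    rw [hI, ← IsLocalRing.residue_eq_zero_iff]
    simp only [map_sub, map_mul, map_pow, map_sum, hm, map_ofNat]
    have := num1 k t
    exact_mod_cast congrArg (fun n : ℤ => (n : IsLocalRing.ResidueField O)) this
  have hN : ∀ t a b, z a * z b * (2 * z t ^ 2 - z t * ∑ i, z i) ∈ N := by
    intro t a b
    rw [mul_comm]
    exact hmul _ _ (hr t) (hzD a b)
  have hwz : ∀ k, w k - z (p1 k) * z (p2 k) ∈ I • D2 := by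
    intro k
    have e : w k - z (p1 k) * z (p2 k)
        = ∑ l, ((if l = k then 1 else 0) - m l (p1 k) * m l (p2 k)) • w l := by
      rw [hzz]
      simp only [sub_smul, Finset.sum_sub_distrib]
      congr 1
      simp [ite_smul]
    rw [e]
    refine Submodule.sum_mem _ (fun l _ => Submodule.smul_mem_smul ?_ (hw l))
    rw [hI, ← IsLocalRing.residue_eq_zero_iff]
    simp only [map_sub, map_mul, hm]
    have := num2 l k
    rw [← Int.cast_mul, this]
    split_ifs <;> simp
  have hfour : ∀ k l, k ≠ l → z (p1 k) * z (p2 k) * (z (p1 l) * z (p2 l)) ∈ N := by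
    intro k l hkl
    have hk := num3 k
    have hl := num3 l
    obtain ⟨hA, hB⟩ := num4 k l hkl
    by_cases c1 : p1 k = p1 l
    · have c2 : p2 k ≠ p2 l := fun e => hA ⟨c1, e⟩
      have := P3 N z hu hN (p1 k) (p2 k) (p2 l) hk (c1 ▸ hl) c2
      rw [← c1]
      convert this using 1
      ring
    by_cases c2 : p2 k = p2 l
    · have := P3 N z hu hN (p2 k) (p1 k) (p1 l) hk.symm (by rw [c2]; exact hl.symm) c1
      rw [← c2]
      convert this using 1
      ring
    by_cases c3 : p1 k = p2 l
    · have c4 : p2 k ≠ p1 l := fun e => hB ⟨c3, e⟩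
      have := P3 N z hu hN (p1 k) (p2 k) (p1 l) hk c1 c4
      rw [← c3]
      convert this using 1
      ring
    by_cases c4 : p2 k = p1 l
    · have := P3 N z hu hN (p2 k) (p1 k) (p2 l) hk.symm c2 c3
      rw [← c4]
      convert this using 1
      ring
    have := P4 N z hu hN (p1 k) (p2 k) (p1 l) (p2 l) hk c1 c3 c4 c2 hl
    convert this using 1
    ring
  have hww : ∀ k l, k ≠ l → w k * w l ∈ N := by
    intro k l hkl
    have e : w k * w l = (w k - z (p1 k) * z (p2 k)) * w l
        + (w l - z (p1 l) * z (p2 l)) * (z (p1 k) * z (p2 k))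
        + z (p1 k) * z (p2 k) * (z (p1 l) * z (p2 l)) := by ring
    rw [e]
    exact N.add_mem (N.add_mem (hmul _ _ (hwz k) (hw l)) (hmul _ _ (hwz l) (hzD _ _)))
      (hfour k l hkl)
  have hNak : D2 * D2 ≤ Submodule.span O (Set.range (fun i => w i * w i)) := by
    refine Submodule.le_of_le_smul_of_le_jacobson_bot (I := I) ?_ ?_ ?_
    · have hfg : D2.FG := Submodule.fg_span (Set.finite_range w)
      exact hfg.mul hfg
    · exact IsLocalRing.maximalIdeal_le_jacobson _
    · refine Submodule.mul_le.2 ?_
      intro x hx y hy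
      have hx' := hx
      refine Submodule.span_induction ?_ ?_ ?_ ?_ hx
      · rintro _ ⟨k, rfl⟩
        refine Submodule.span_induction ?_ ?_ ?_ ?_ hy
        · rintro _ ⟨l, rfl⟩
          by_cases h : k = l
          · subst h
            exact Submodule.mem_sup_left (Submodule.subset_span ⟨k, rfl⟩)
          · exact Submodule.mem_sup_right (hww k l h)
        · rw [mul_zero]; exact Submodule.zero_mem _
        · intro a b _ _ ha hb
          rw [mul_add]; exact Submodule.add_mem _ ha hb
        · intro r a _ ha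
          rw [mul_smul_comm]; exact Submodule.smul_mem _ _ ha
      · rw [zero_mul]; exact Submodule.zero_mem _
      · intro a b _ _ ha hb
        rw [add_mul]; exact Submodule.add_mem _ ha hb
      · intro r a _ ha
        rw [smul_mul_assoc]; exact Submodule.smul_mem _ _ ha
  have hmem := hNak (Submodule.mul_mem_mul (hw k) (hw l))
  rw [Submodule.mem_span_range_iff_exists_fun] at hmem
  obtain ⟨u, hu'⟩ := hmem
  have hu0 : ∀ i, u i = 0 := by
    intro i
    have h := congrArg (ev i) hu'
    rw [map_sum, map_mul, hev, hev] at h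
    simp only [map_smul, map_mul, hev, smul_eq_mul] at h
    have h2 : ∑ x, u x * ((if i = x then (1 : O) else 0) * if i = x then 1 else 0) = u i := by
      rw [Finset.sum_eq_single i]
      · simp
      · intro b _ hb
        simp [hb.symm]
      · simp
    rw [h2] at h
    rw [h]
    by_cases h3 : i = k
    · subst h3
      simp [hkl]
    · simp [h3]
  rw [← hu']
  simp [hu0]

theorem zeta_sq (m : Fin 15 → Fin 6 → O) (z : Fin 6 → B) (w : Fin 15 → B)
    (hzz : ∀ i j, z i * z j = ∑ k, (m k i * m k j) • w k)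
    (hw : ∀ k l, k ≠ l → w k * w l = 0) (k : Fin 15) (i j : Fin 6) :
    ((m k i • z j - m k j • z i) * w k) ^ 2 = 0 := by
  have h1 : (m k i • z j - m k j • z i) * (m k i • z j - m k j • z i)
      = ∑ l, ((m k i * m l j - m k j * m l i) ^ 2) • w l := by
    have e : (m k i • z j - m k j • z i) * (m k i • z j - m k j • z i)
        = (m k i * m k i) • (z j * z j) - (2 * m k i * m k j) • (z i * z j)
          + (m k j * m k j) • (z i * z i) := by
      simp only [Algebra.smul_def, map_mul, map_ofNat]
      ring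
    rw [e, hzz, hzz, hzz, Finset.smul_sum, Finset.smul_sum, Finset.smul_sum,
      ← Finset.sum_sub_distrib, ← Finset.sum_add_distrib]
    refine Finset.sum_congr rfl (fun l _ => ?_)
    simp only [smul_smul]
    rw [← sub_smul, ← add_smul]
    congr 1
    ring
  have h2 : (m k i • z j - m k j • z i) * (m k i • z j - m k j • z i) * w k = 0 := by
    rw [h1, Finset.sum_mul]
    refine Finset.sum_eq_zero (fun l _ => ?_)
    by_cases h : l = k
    · subst h
      have : m l i * m l j - m l j * m l i = 0 := by ring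
      rw [this]
      simp
    · rw [smul_mul_assoc, hw l k h, smul_zero]
  calc ((m k i • z j - m k j • z i) * w k) ^ 2
      = ((m k i • z j - m k j • z i) * (m k i • z j - m k j • z i) * w k) * w k := by ring
    _ = 0 := by rw [h2, zero_mul]

end Core

end Pool.Agent.H154R4.LSS
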