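import Pool.Agent.H154R4.Lin

set_option autoImplicit false

namespace Pool.Agent.H154R4.LSS

/-- vector `(u0,u1,u2,-u0,-u1,-u2)` -/
def zvec {D : Type*} [CommRing D] (u0 u1 u2 : D) : Fin 6 → D := ![u0, u1, u2, -u0, -u1, -u2]

lemma sum15 {D : Type*} [AddCommMonoid D] (g : Fin 15 → D) :
    ∑ k, g k = g 0 + g 1 + g 2 + g 3 + g 4 + g 5 + g 6 + g 7 + g 8 + g 9 + g 10 + g 11 + g 12
      + g 13 + g 14 := by
  simp only [Fin.sum_univ_castSucc, Fin.sum_univ_zero, zero_add]
  rfl

lemma diag_gen {D : Type*} [CommRing D] (x : Fin 6 → D) (i j : Fin 6) :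
    ∑ k, ((M0 k i : ℤ) : D) * ((M0 k j : ℤ) : D) * (x (p1 k) * x (p2 k))
      = if i = j then x i * (∑ t, x t - x i) else x i * x j := by
  have hM0 : ∀ k i, ((M0 k i : ℤ) : D) = if (i = p1 k ∨ i = p2 k) then 1 else 0 := by
    intro k i
    simp only [M0]
    split_ifs <;> simp
  rw [sum15]
  simp only [hM0]
  fin_cases i <;> fin_cases j <;>
    simp (decide := true) only [if_true, if_false, one_mul, zero_mul, mul_zero, add_zero,
      zero_add, Fin.sum_univ_six, p1, p2] <;>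
    simp <;> ring

lemma ext_step (A : Type) [CommRing A] [Algebra ℂ A] (x : A) (hx : x ≠ 0) :
    ∃ (A' : Type) (_ : CommRing A') (_ : Algebra ℂ A') (f : A →+* A') (e : A'),
      e * e = 0 ∧ f x * e ≠ 0 := by
  refine ⟨DualNumber A, inferInstance, inferInstance, TrivSqZeroExt.inlHom A A, DualNumber.eps,
    DualNumber.eps_mul_eps, ?_⟩
  intro h
  apply hx
  have h' : (TrivSqZeroExt.inl x * TrivSqZeroExt.inr (1 : A) : DualNumber A).snd = 0 := by
    have e : (TrivSqZeroExt.inl x * TrivSqZeroExt.inr (1 : A) : DualNumber A) = 0 := h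
    rw [e]
    rfl
  rw [TrivSqZeroExt.inl_mul_inr, TrivSqZeroExt.snd_inr, smul_eq_mul, mul_one] at h'
  exact h'

theorem test_data {D : Type*} [CommRing D] [Algebra ℂ D] (u0 u1 u2 : D) (h0 : u0 * u0 = 0)
    (h1 : u1 * u1 = 0) (h2 : u2 * u2 = 0) :
    ∃ (Φ : Matrix (Fin 9) (Fin 15) D) (Γ : Fin 15 → D),
      (∀ k l, ∑ s, (((A0 s k : ℤ) : D) * Φ s l + Φ s k * ((A0 s l : ℤ) : D)) + Γ k * Γ l
        = if k = l then zvec u0 u1 u2 (p1 k) * zvec u0 u1 u2 (p2 k) else 0) ∧
      (∀ j, ∑ k, ((M0 k j : ℤ) : D) * Γ k = zvec u0 u1 u2 j) := by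
  set zv := zvec u0 u1 u2 with hzv
  set w : Fin 15 → D := fun k => zv (p1 k) * zv (p2 k) with hw
  set Γ : Fin 15 → D := fun k => ∑ i, (1/2 : ℂ) • (((NN i k : ℤ) : D) * zv i) with hΓ
  have hz : ∀ j, ∑ k, ((M0 k j : ℤ) : D) * Γ k = zv j := by
    intro j
    have e : ∑ k, ((M0 k j : ℤ) : D) * Γ k
        = ∑ i, (1/2 : ℂ) • (((∑ k, NN i k * MM k j : ℤ) : D) * zv i) := by
      simp only [hΓ, Finset.mul_sum]
      rw [Finset.sum_comm]
      refine Finset.sum_congr rfl (fun i _ => ?_)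
      rw [Int.cast_sum, Finset.sum_mul, Finset.smul_sum]
      refine Finset.sum_congr rfl (fun k _ => ?_)
      rw [mul_smul_comm]
      congr 1
      simp only [MM, Matrix.of_apply]
      push_cast
      ring
    rw [e]
    have hN : ∀ i, ∑ k, NN i k * MM k j = if i = j then 2 else 0 := by
      intro i
      have := congrFun (congrFun NN_MM i) j
      simpa [Matrix.mul_apply] using this
    simp only [hN]
    rw [Finset.sum_eq_single j]
    · simp only [if_true]
      rw [Algebra.smul_def]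
      have : (algebraMap ℂ D) (1/2) * (((2 : ℤ) : D) * zv j)
          = (algebraMap ℂ D) (1/2 * 2) * zv j := by
        rw [map_mul, map_ofNat]
        push_cast
        ring
      rw [this]
      simp
    · intro b _ hb
      simp [hb]
    · simp
  set Y : Matrix (Fin 15) (Fin 15) D := Matrix.of (fun k l => (if k = l then w k else 0) - Γ k * Γ l)
    with hY
  have hYt : Y.transpose = Y := by
    ext k l
    simp only [hY, Matrix.transpose_apply, Matrix.of_apply]
    by_cases h : k = l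
    · subst h; rfl
    · rw [if_neg h, if_neg (Ne.symm h)]; ring
  have hdiag : ∀ i j, ∑ k, ((M0 k i : ℤ) : D) * ((M0 k j : ℤ) : D) * w k = zv i * zv j := by
    intro i j
    rw [diag_gen zv i j]
    have hsum : ∑ t, zv t = 0 := by
      rw [hzv, Fin.sum_univ_six]
      simp [zvec]
      ring
    have hsq : ∀ t, zv t * zv t = 0 := by
      intro t
      rw [hzv]
      fin_cases t <;> simp [zvec, h0, h1, h2]
    by_cases h : i = j
    · subst h
      rw [if_pos rfl, hsum, zero_sub, mul_neg, hsq, neg_zero]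
    · rw [if_neg h]
  have hM : (cst D MM).transpose * Y * cst D MM = 0 := by
    ext i j
    rw [Matrix.mul_apply]
    simp only [Matrix.mul_apply, Matrix.transpose_apply, cst, Matrix.map_apply, MM,
      Matrix.of_apply, hY, Matrix.zero_apply]
    have e : ∑ l, (∑ k, ((M0 k i : ℤ) : D) * ((if k = l then w k else 0) - Γ k * Γ l))
        * ((M0 l j : ℤ) : D)
        = ∑ k, ((M0 k i : ℤ) : D) * ((M0 k j : ℤ) : D) * w k
          - (∑ k, ((M0 k i : ℤ) : D) * Γ k) * (∑ l, ((M0 l j : ℤ) : D) * Γ l) := by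
      simp only [mul_sub, Finset.sum_sub_distrib, sub_mul]
      congr 1
      · refine Finset.sum_congr rfl (fun l _ => ?_)
        simp
        ring
      · rw [Finset.sum_mul_sum]
        simp only [Finset.sum_mul]
        rw [Finset.sum_comm]
        refine Finset.sum_congr rfl (fun k _ => Finset.sum_congr rfl (fun l _ => ?_))
        ring
    rw [e, hdiag, hz, hz, sub_self]
  obtain ⟨Φ, hΦ⟩ := solve Y hYt hM
  refine ⟨Φ, Γ, ?_, hz⟩
  intro k l
  have := congrFun (congrFun hΦ k) l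
  simp only [Matrix.add_apply, Matrix.mul_apply, Matrix.transpose_apply, cst, Matrix.map_apply,
    hY, Matrix.of_apply] at this
  rw [← Finset.sum_add_distrib] at this
  rw [this]
  ring

theorem exists_test : ∃ (D : Type) (_ : CommRing D) (_ : Algebra ℂ D)
      (Φ : Matrix (Fin 9) (Fin 15) D) (Γ w : Fin 15 → D) (zv : Fin 6 → D),
      (∀ k l, ∑ s, (((A0 s k : ℤ) : D) * Φ s l + Φ s k * ((A0 s l : ℤ) : D)) + Γ k * Γ l
        = if k = l then w k else 0) ∧
      (∀ j, ∑ k, ((M0 k j : ℤ) : D) * Γ k = zv j) ∧ zv 2 * w 9 ≠ 0 := by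
  obtain ⟨A1, i1, j1, f1, e1, h1, g1⟩ := ext_step ℂ 1 one_ne_zero
  rw [map_one, one_mul] at g1
  obtain ⟨A2, i2, j2, f2, e2, h2, g2⟩ := ext_step A1 e1 g1
  obtain ⟨A3, i3, j3, f3, e3, h3, g3⟩ := ext_step A2 _ g2
  obtain ⟨Φ, Γ, hA, hB⟩ := test_data (D := A3) (f3 (f2 e1)) (f3 e2) e3
    (by rw [← map_mul, ← map_mul, h1, map_zero, map_zero]) (by rw [← map_mul, h2, map_zero]) h3
  refine ⟨A3, i3, j3, Φ, Γ, _, _, hA, hB, ?_⟩
  intro h
  apply g3
  rw [map_mul, mul_comm]
  exact h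

end Pool.Agent.H154R4.LSS
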